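import Pool.Agent.H67C1a.Cert

set_option autoImplicit false

namespace Pool.Agent.Results.MP_0bd6b6_an.UpperBound

open Pool.Agent.H67C1a

/-- The autocorrelation constant satisfies `C_{1a} ≤ 1.5028430`, which is smaller than
`1.5028628587`.  The first part says that the supremum in the definition of `C1a` is the supremum
of a bounded set (which contains `0`). -/
theorem result : (∀ C : ℝ, Admissible C → C ≤ 1.5028430) ∧ Admissible 0 ∧ C1a ≤ 1.5028430 ∧
    C1a < 1.5028628587 := by
  have h : ∀ C : ℝ, Admissible C → C ≤ 1.5028430 := by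
    intro C hC
    have h1 := Cert.bound hC
    have h2 : (2 * ((12800 : ℕ) : ℝ) * ((10575317331486155 : ℕ) : ℝ)) ≤
        1.5028430 * ((13421772837 : ℕ) : ℝ) ^ 2 := by
      norm_num
    have h3 : (0 : ℝ) < ((13421772837 : ℕ) : ℝ) ^ 2 := by positivity
    exact le_of_mul_le_mul_right (h1.trans h2) h3
  have h4 : C1a ≤ 1.5028430 := csSup_le ⟨0, admissible_zero⟩ (fun C hC => h C hC)
  exact ⟨h, admissible_zero, h4, lt_of_le_of_lt h4 (by norm_num)⟩

end Pool.Agent.Results.MP_0bd6b6_an.UpperBound
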